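import Pool.Agent.Lib_MP_008adc_co.NCond

/-!
# Products of `k` distinct odd primes below `2 ^ b`
-/

set_option autoImplicit false

namespace HadNT

/-- the products of `k` distinct odd primes `≤ 2 ^ b` -/
def PO (b k : ℕ) : Finset ℕ :=
  (Finset.powersetCard k ((Finset.range (2 ^ b + 1)).filter fun p => p.Prime ∧ p ≠ 2)).image
    (fun s => ∏ p ∈ s, p)

theorem PO_mem {b k u : ℕ} (hu : u ∈ PO b k) :
    ∃ s : Finset ℕ, (∀ p ∈ s, p.Prime ∧ p ≠ 2 ∧ p ≤ 2 ^ b) ∧ s.card = k ∧ u = ∏ p ∈ s, p := by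
  unfold PO at hu
  obtain ⟨s, hs, rfl⟩ := Finset.mem_image.1 hu
  obtain ⟨h1, h2⟩ := Finset.mem_powersetCard.1 hs
  refine ⟨s, fun p hp => ?_, h2, rfl⟩
  have h3 := Finset.mem_filter.1 (h1 hp)
  exact ⟨h3.2.1, h3.2.2, Nat.lt_succ_iff.1 (Finset.mem_range.1 h3.1)⟩

theorem PO_card (b k : ℕ) (hb : 1 ≤ b) :
    (PO b k).card = (Nat.primeCounting (2 ^ b) - 1).choose k := by
  unfold PO
  have h0 : ((Finset.range (2 ^ b + 1)).filter fun p => p.Prime ∧ p ≠ 2).card =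
      Nat.primeCounting (2 ^ b) - 1 := by
    have h1 : (Finset.range (2 ^ b + 1)).filter (fun p => p.Prime ∧ p ≠ 2) =
        ((Finset.range (2 ^ b + 1)).filter Nat.Prime).erase 2 := by
      ext p
      simp only [Finset.mem_filter, Finset.mem_erase, Finset.mem_range]
      tauto
    have h2 : 2 ∈ (Finset.range (2 ^ b + 1)).filter Nat.Prime := by
      rw [Finset.mem_filter, Finset.mem_range]
      refine ⟨?_, Nat.prime_two⟩
      have : 2 ^ 1 ≤ 2 ^ b := Nat.pow_le_pow_right (by norm_num) hb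
      omega
    rw [h1, Finset.card_erase_of_mem h2, Nat.primeCounting, Nat.primeCounting',
      Nat.count_eq_card_filter_range]
  rw [Finset.card_image_of_injOn, Finset.card_powersetCard, h0]
  intro s hs s' hs' h
  have hp : ∀ t ∈ (Finset.powersetCard k ((Finset.range (2 ^ b + 1)).filter
      fun p => p.Prime ∧ p ≠ 2) : Set (Finset ℕ)), ∀ p ∈ t, p.Prime := by
    intro t ht p hpt
    have h1 := (Finset.mem_powersetCard.1 (Finset.mem_coe.1 ht)).1 hpt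
    exact (Finset.mem_filter.1 h1).2.1
  have h' : ∏ p ∈ s, p = ∏ p ∈ s', p := h
  rw [← Nat.primeFactors_prod (hp s hs), h', Nat.primeFactors_prod (hp s' hs')]

theorem PO_bound {b k u : ℕ} (hu : u ∈ PO b k) : 1 ≤ u ∧ u ≤ (2 ^ b) ^ k := by
  obtain ⟨s, hs, hk, rfl⟩ := PO_mem hu
  refine ⟨Finset.prod_pos fun p hp => (hs p hp).1.pos, ?_⟩
  rw [← hk]
  exact Finset.prod_le_pow_card s (fun p => p) (2 ^ b) fun p hp => (hs p hp).2.2

/-- the members are products of `k` odd numbers below `2 ^ b` -/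
theorem PO_list {b k u : ℕ} (hb : 1 ≤ b) (hu : u ∈ PO b k) :
    ∃ L : List ℕ, L.length = k ∧ (∀ x ∈ L, x < 2 ^ b ∧ Odd x) ∧ u = L.prod := by
  obtain ⟨s, hs, hk, rfl⟩ := PO_mem hu
  refine ⟨s.toList, by rw [Finset.length_toList, hk], ?_, ?_⟩
  · intro x hx
    have h := hs x (Finset.mem_toList.1 hx)
    have hodd : Odd x := h.1.odd_of_ne_two h.2.1
    refine ⟨lt_of_le_of_ne h.2.2 ?_, hodd⟩
    intro h2
    rw [h2] at hodd
    have : Even (2 ^ b) := (Nat.even_pow.2 ⟨even_two, by omega⟩)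
    exact (Nat.not_odd_iff_even.2 this) hodd
  · rw [Finset.prod_toList]

theorem PO_odd {b k u : ℕ} (hu : u ∈ PO b k) : Odd u := by
  obtain ⟨s, hs, hk, rfl⟩ := PO_mem hu
  exact Finset.prod_induction _ Odd (fun _ _ => Odd.mul) odd_one
    fun p hp => (hs p hp).1.odd_of_ne_two (hs p hp).2.1

/-- the density of the products: `2 ^ (b k) ≤ 2 ^ (l k) |PO b k|` as soon as `4 b k ≤ 2 ^ l`, `l ≤ b` -/
theorem PO_dense (b k l : ℕ) (hb : 2 ≤ b) (h1 : 4 * b * k ≤ 2 ^ l) (hl : l ≤ b) :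
    (2 ^ b) ^ k ≤ 2 ^ (l * k) * (PO b k).card := by
  rw [PO_card b k (by omega)]
  set π := Nat.primeCounting (2 ^ b) with hπ
  have hP : 2 ^ b ≤ 2 * b * π := pi_two_pow b (by omega)
  have hπ2 : 2 ≤ π := by
    have h9 : Nat.primeCounting 3 ≤ Nat.primeCounting (2 ^ b) := by
      refine Nat.monotone_primeCounting ?_
      calc 3 ≤ 2 ^ 2 := by norm_num
        _ ≤ 2 ^ b := Nat.pow_le_pow_right (by norm_num) hb
    have h10 : Nat.primeCounting 3 = 2 := by decide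
    omega
  obtain ⟨ρ, hρ⟩ : ∃ ρ, π = ρ + 1 := ⟨π - 1, by omega⟩
  rw [hρ] at hP hπ2
  rw [hρ, Nat.add_sub_cancel]
  have hP' : 2 ^ b ≤ 4 * b * ρ := by
    have : 2 * b * (ρ + 1) ≤ 2 * b * (2 * ρ) := Nat.mul_le_mul_left _ (by omega)
    calc 2 ^ b ≤ 2 * b * (ρ + 1) := hP
      _ ≤ 2 * b * (2 * ρ) := this
      _ = 4 * b * ρ := by ring
  have hkρ : k ≤ ρ := by
    have e1 : 4 * b * k ≤ 4 * b * ρ :=
      h1.trans ((Nat.pow_le_pow_right (by norm_num) hl).trans hP')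
    exact Nat.le_of_mul_le_mul_left e1 (by omega)
  calc (2 ^ b) ^ k ≤ (4 * b * ρ) ^ k := Nat.pow_le_pow_left hP' k
    _ = (4 * b) ^ k * ρ ^ k := mul_pow _ _ _
    _ ≤ (4 * b) ^ k * (k ^ k * ρ.choose k) :=
        Nat.mul_le_mul_left _ (pow_le_pow_mul_choose ρ k hkρ)
    _ = (4 * b * k) ^ k * ρ.choose k := by rw [mul_pow (4 * b) k k]; ring
    _ ≤ (2 ^ l) ^ k * ρ.choose k := Nat.mul_le_mul_right _ (Nat.pow_le_pow_left h1 k)
    _ = 2 ^ (l * k) * ρ.choose k := by rw [← pow_mul]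

end HadNT
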