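import Pool.Agent.Lib_MP_008adc_c2.Octo
import Pool.Agent.Lib_MP_008adc_c2.POdd
import Pool.Agent.Lib_MP_008adc_co.NBil

/-!
# The additive lemma modulo a power of two
-/

set_option autoImplicit false

namespace HadNT

/-- the order is not changed by an odd factor -/
theorem order_mul_odd {R i u : ℕ} (hu : Odd u) {h : ZMod (2 ^ R)} (hh : addOrderOf h = 2 ^ i) :
    addOrderOf (h * (u : ZMod (2 ^ R))) = 2 ^ i := by
  have h1 : h * (u : ZMod (2 ^ R)) = u • h := by rw [nsmul_eq_mul, mul_comm]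
  rw [h1, ← hh]
  apply Nat.Coprime.addOrderOf_nsmul
  rw [hh]
  exact Nat.Coprime.pow_left i (Nat.coprime_two_left.2 hu)

/-- The state of the induction: a family of odd numbers `g t`, products of `2 ^ (J + 2) - 3` odd numbers
below `2 ^ b`, with small exponential sums at the orders `2 ^ i`, `2 ≤ i ≤ b 2 ^ J`. -/
def FamOK (R b J : ℕ) [NeZero (2 ^ R)] {τ : Type} (T : Finset τ) (g : τ → ℕ) : Prop :=
  T.Nonempty ∧
  (∀ t ∈ T, ∃ L : List ℕ, L.length = 2 ^ (J + 2) - 3 ∧ (∀ x ∈ L, x < 2 ^ b ∧ Odd x) ∧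
    g t = L.prod) ∧
  (∀ (h : ZMod (2 ^ R)) (i : ℕ), 2 ≤ i → i ≤ b → addOrderOf h = 2 ^ i →
    Sg (2 ^ R) T (fun t => (g t : ZMod (2 ^ R))) h = 0) ∧
  ∀ (h : ZMod (2 ^ R)) (i : ℕ), b < i → i ≤ b * 2 ^ J → addOrderOf h = 2 ^ i →
    ‖Sg (2 ^ R) T (fun t => (g t : ZMod (2 ^ R))) h‖ * 2 ^ (i / 4) ≤ T.card

theorem list_odd {L : List ℕ} (h : ∀ x ∈ L, Odd x) : Odd L.prod := by
  induction L with
  | nil => exact odd_one
  | cons a L ih =>
    rw [List.prod_cons]
    exact (h a (by simp)).mul (ih fun x hx => h x (List.mem_cons_of_mem _ hx))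

/-- the odd numbers below `2 ^ b` -/
theorem fam_base (R b : ℕ) [NeZero (2 ^ R)] (hb : 1 ≤ b) :
    FamOK R b 0 (Finset.range (2 ^ (b - 1))) (fun y => 2 * y + 1) := by
  refine ⟨⟨0, Finset.mem_range.2 (by positivity)⟩, ?_, ?_, ?_⟩
  · intro y hy
    refine ⟨[2 * y + 1], rfl, ?_, by simp⟩
    intro x hx
    rw [List.mem_singleton] at hx
    subst hx
    have h1 := Finset.mem_range.1 hy
    have h2 : 2 * 2 ^ (b - 1) = 2 ^ b := by
      rw [← pow_succ']
      congr 1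
      omega
    exact ⟨by omega, ⟨y, rfl⟩⟩
  · intro h i hi hib hh
    unfold Sg
    set ψ : AddChar (ZMod (2 ^ R)) ℂ := ZMod.stdAddChar with hψ
    have h1 : ∀ y ∈ Finset.range (2 ^ (b - 1)),
        ψ (h * ((2 * y + 1 : ℕ) : ZMod (2 ^ R))) = ψ h * ψ (2 * h) ^ y := by
      intro y _
      rw [← AddChar.map_nsmul_eq_pow, ← AddChar.map_add_eq_mul]
      congr 1
      rw [nsmul_eq_mul]
      push_cast
      ring
    rw [Finset.sum_congr rfl h1, ← Finset.mul_sum]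
    have h2 : ψ (2 * h) ≠ 1 := by
      intro h3
      have h4 : 2 * h = 0 := by
        apply ZMod.injective_stdAddChar
        rw [AddChar.map_zero_eq_one]
        exact h3
      have h5 : (2 : ℕ) • h = 0 := by rw [nsmul_eq_mul]; exact_mod_cast h4
      have h6 := addOrderOf_dvd_of_nsmul_eq_zero h5
      rw [hh] at h6
      have h7 := Nat.le_of_dvd (by norm_num) h6
      have h8 : 2 ^ 2 ≤ 2 ^ i := Nat.pow_le_pow_right (by norm_num) hi
      omega
    have h9 : ψ (2 * h) ^ 2 ^ (b - 1) = 1 := by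
      rw [← AddChar.map_nsmul_eq_pow]
      have h10 : (2 ^ (b - 1)) • (2 * h) = 0 := by
        have h11 : (2 ^ (b - 1)) • (2 * h) = (2 ^ b) • h := by
          rw [nsmul_eq_mul, nsmul_eq_mul]
          have e : b = (b - 1) + 1 := by omega
          conv_rhs => rw [e]
          push_cast
          ring
        rw [h11]
        apply addOrderOf_dvd_iff_nsmul_eq_zero.1
        rw [hh]
        exact pow_dvd_pow 2 hib
      rw [h10, AddChar.map_zero_eq_one]
    rw [geom_sum_eq h2, h9, sub_self, zero_div, mul_zero]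
  · intro h i hi hib _
    rw [pow_zero, mul_one] at hib
    omega

/-- one more pair of blocks of variables -/
theorem fam_step (R b J l : ℕ) [NeZero (2 ^ R)] {τ : Type} (T : Finset τ) (g : τ → ℕ)
    (h : FamOK R b J T g) (hl : 4 * b * 2 ^ (J + 1) ≤ 2 ^ l) (hb : 8 * l + 8 ≤ b) :
    FamOK R b (J + 1) (T ×ˢ (PO b (2 ^ (J + 1)) ×ˢ PO b (2 ^ (J + 1))))
      (fun x => g x.1 * (x.2.1 * x.2.2)) := by
  classical
  obtain ⟨hT, hL, hz, hs⟩ := h
  set k := 2 ^ (J + 1) with hk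
  set U := PO b k with hU
  have hdense : (2 ^ b) ^ k ≤ 2 ^ (l * k) * U.card := PO_dense b k l (by omega) hl (by omega)
  have hUne : U.Nonempty := by
    rw [← Finset.card_pos]
    by_contra h0
    have h1 : U.card = 0 := by omega
    rw [h1, mul_zero] at hdense
    have : 0 < (2 ^ b) ^ k := by positivity
    omega
  have hgodd : ∀ t ∈ T, Odd (g t) := by
    intro t ht
    obtain ⟨L, -, h2, h3⟩ := hL t ht
    rw [h3]
    exact list_odd fun x hx => (h2 x hx).2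
  -- the sum as a sum over the new variables
  have hsum : ∀ h : ZMod (2 ^ R),
      Sg (2 ^ R) (T ×ˢ (U ×ˢ U)) (fun x => ((g x.1 * (x.2.1 * x.2.2) : ℕ) : ZMod (2 ^ R))) h =
        ∑ y ∈ U ×ˢ U, Sg (2 ^ R) T (fun t => (g t : ZMod (2 ^ R)))
          (h * ((y.1 * y.2 : ℕ) : ZMod (2 ^ R))) := by
    intro h
    unfold Sg
    rw [Finset.sum_product, Finset.sum_comm]
    refine Finset.sum_congr rfl fun y _ => Finset.sum_congr rfl fun t _ => ?_
    congr 1
    push_cast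
    ring
  have hyodd : ∀ y ∈ U ×ˢ U, Odd (y.1 * y.2) := by
    intro y hy
    rw [Finset.mem_product] at hy
    exact (PO_odd hy.1).mul (PO_odd hy.2)
  refine ⟨hT.product (hUne.product hUne), ?_, ?_, ?_⟩
  · rintro ⟨t, u, v⟩ hx
    rw [Finset.mem_product, Finset.mem_product] at hx
    obtain ⟨L, h1, h2, h3⟩ := hL t hx.1
    obtain ⟨L₁, h4, h5, h6⟩ := PO_list (by omega) hx.2.1
    obtain ⟨L₂, h7, h8, h9⟩ := PO_list (by omega) hx.2.2
    refine ⟨L ++ (L₁ ++ L₂), ?_, ?_, ?_⟩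
    · rw [List.length_append, List.length_append, h1, h4, h7, hk]
      have e1 : 2 ^ (J + 1 + 2) = 8 * 2 ^ J := by ring
      have e2 : 2 ^ (J + 2) = 4 * 2 ^ J := by ring
      have e3 : 2 ^ (J + 1) = 2 * 2 ^ J := by ring
      have e4 : 0 < 2 ^ J := by positivity
      omega
    · intro x hx
      rw [List.mem_append, List.mem_append] at hx
      rcases hx with hx | hx | hx
      · exact h2 x hx
      · exact h5 x hx
      · exact h8 x hx
    · rw [List.prod_append, List.prod_append, ← h3, ← h6, ← h9]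
  · intro h i hi hib hh
    rw [hsum]
    refine Finset.sum_eq_zero fun y hy => ?_
    exact hz _ i hi hib (order_mul_odd (hyodd y hy) hh)
  · intro h i hi hib hh
    rcases Nat.lt_or_ge (b * 2 ^ J) i with hcase | hcase
    · -- the new range
      have hd : (0 : ℝ) < 2 ^ i := by positivity
      set B := (2 ^ b) ^ k with hB
      have hBd : 2 ^ i ≤ B := by
        rw [hB, ← pow_mul]
        exact Nat.pow_le_pow_right (by norm_num) hib
      have hbil : ∀ t ∈ T, ‖∑ y ∈ U ×ˢ U,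
          (ZMod.stdAddChar (h * ((g t * (y.1 * y.2) : ℕ) : ZMod (2 ^ R))) : ℂ)‖ *
            2 ^ (i / 4) ≤ (U.card : ℝ) ^ 2 := by
        intro t ht
        have ho := order_mul_odd (hgodd t ht) hh
        have h1 := bil (2 ^ R) (h * (g t : ZMod (2 ^ R))) U U B
          (fun u hu => PO_bound hu) (fun u hu => PO_bound hu)
        rw [ho] at h1
        have e1 : Sg (2 ^ R) (U ×ˢ U) (fun x => ((x.1 * x.2 : ℕ) : ZMod (2 ^ R)))
            (h * (g t : ZMod (2 ^ R))) = ∑ y ∈ U ×ˢ U,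
            (ZMod.stdAddChar (h * ((g t * (y.1 * y.2) : ℕ) : ZMod (2 ^ R))) : ℂ) := by
          unfold Sg
          refine Finset.sum_congr rfl fun y _ => ?_
          congr 1
          push_cast
          ring
        rw [e1] at h1
        set X := ‖∑ y ∈ U ×ˢ U,
          (ZMod.stdAddChar (h * ((g t * (y.1 * y.2) : ℕ) : ZMod (2 ^ R))) : ℂ)‖ with hX
        have hX0 : 0 ≤ X := norm_nonneg _
        have h2 : ((B / 2 ^ i + 1 : ℕ) : ℝ) * 2 ^ i ≤ 2 * B := by
          have h3 : (B / 2 ^ i + 1) * 2 ^ i ≤ 2 * B := by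
            have := Nat.div_mul_le_self B (2 ^ i)
            calc (B / 2 ^ i + 1) * 2 ^ i = B / 2 ^ i * 2 ^ i + 2 ^ i := by ring
              _ ≤ B + B := Nat.add_le_add this hBd
              _ = 2 * B := by ring
          exact_mod_cast h3
        -- `X ^ 2 2 ^ i ≤ 4 |U| ^ 2 B ^ 2`
        have h4 : X ^ 2 * 2 ^ i ≤ (U.card : ℝ) ^ 2 * (2 * B) ^ 2 := by
          have h5 : (((B / 2 ^ i + 1 : ℕ) : ℝ) * 2 ^ i) ^ 2 ≤ (2 * (B : ℝ)) ^ 2 :=
            pow_le_pow_left₀ (by positivity) h2 2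
          have h6 : X ^ 2 * 2 ^ i ≤ ((U.card : ℝ) * U.card * ((2 ^ i : ℕ) : ℝ) *
              ((B / 2 ^ i + 1 : ℕ) : ℝ) ^ 2) * 2 ^ i :=
            mul_le_mul_of_nonneg_right h1 hd.le
          refine h6.trans ?_
          have e2 : ((U.card : ℝ) * U.card * ((2 ^ i : ℕ) : ℝ) *
              ((B / 2 ^ i + 1 : ℕ) : ℝ) ^ 2) * 2 ^ i =
              (U.card : ℝ) ^ 2 * (((B / 2 ^ i + 1 : ℕ) : ℝ) * 2 ^ i) ^ 2 := by
            push_cast
            ring
          rw [e2]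
          exact mul_le_mul_of_nonneg_left h5 (by positivity)
        have h7 : (B : ℝ) ≤ 2 ^ (l * k) * U.card := by exact_mod_cast hdense
        have h8 : (2 * (B : ℝ)) ^ 2 * (2 ^ (i / 4)) ^ 2 ≤ (U.card : ℝ) ^ 2 * 2 ^ i := by
          have h9 : (2 : ℝ) ^ (2 + 2 * (l * k) + 2 * (i / 4)) ≤ 2 ^ i := by
            refine pow_le_pow_right₀ (by norm_num) ?_
            have e1 : b * 2 ^ J * 2 = b * k := by rw [hk]; ring
            have e2 : (8 * l + 8) * k ≤ b * k := Nat.mul_le_mul_right _ hb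
            have e3 : 1 ≤ k := Nat.one_le_two_pow
            have e4 : (8 * l + 8) * k = 8 * (l * k) + 8 * k := by ring
            omega
          calc (2 * (B : ℝ)) ^ 2 * (2 ^ (i / 4)) ^ 2
              ≤ (2 * (2 ^ (l * k) * (U.card : ℝ))) ^ 2 * (2 ^ (i / 4)) ^ 2 := by
                gcongr
            _ = (U.card : ℝ) ^ 2 * 2 ^ (2 + 2 * (l * k) + 2 * (i / 4)) := by
                rw [pow_add, pow_add, mul_comm 2 (l * k), mul_comm 2 (i / 4), pow_mul, pow_mul]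
                ring
            _ ≤ (U.card : ℝ) ^ 2 * 2 ^ i := mul_le_mul_of_nonneg_left h9 (by positivity)
        have h10 : (X * 2 ^ (i / 4)) ^ 2 ≤ ((U.card : ℝ) ^ 2) ^ 2 := by
          have h11 : (X * 2 ^ (i / 4)) ^ 2 * 2 ^ i ≤ ((U.card : ℝ) ^ 2) ^ 2 * 2 ^ i := by
            calc (X * 2 ^ (i / 4)) ^ 2 * 2 ^ i = (X ^ 2 * 2 ^ i) * (2 ^ (i / 4)) ^ 2 := by ring
              _ ≤ ((U.card : ℝ) ^ 2 * (2 * B) ^ 2) * (2 ^ (i / 4)) ^ 2 :=
                  mul_le_mul_of_nonneg_right h4 (by positivity)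
              _ = (U.card : ℝ) ^ 2 * ((2 * (B : ℝ)) ^ 2 * (2 ^ (i / 4)) ^ 2) := by ring
              _ ≤ (U.card : ℝ) ^ 2 * ((U.card : ℝ) ^ 2 * 2 ^ i) :=
                  mul_le_mul_of_nonneg_left h8 (by positivity)
              _ = ((U.card : ℝ) ^ 2) ^ 2 * 2 ^ i := by ring
          exact le_of_mul_le_mul_right h11 hd
        exact le_of_sq_le_sq h10 (by positivity)
      have e0 : Sg (2 ^ R) (T ×ˢ (U ×ˢ U))
          (fun x => ((g x.1 * (x.2.1 * x.2.2) : ℕ) : ZMod (2 ^ R))) h =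
          ∑ t ∈ T, ∑ y ∈ U ×ˢ U,
            (ZMod.stdAddChar (h * ((g t * (y.1 * y.2) : ℕ) : ZMod (2 ^ R))) : ℂ) := by
        unfold Sg
        rw [Finset.sum_product]
      rw [e0]
      calc ‖∑ t ∈ T, ∑ y ∈ U ×ˢ U,
            (ZMod.stdAddChar (h * ((g t * (y.1 * y.2) : ℕ) : ZMod (2 ^ R))) : ℂ)‖ * 2 ^ (i / 4)
          ≤ (∑ t ∈ T, ‖∑ y ∈ U ×ˢ U,
            (ZMod.stdAddChar (h * ((g t * (y.1 * y.2) : ℕ) : ZMod (2 ^ R))) : ℂ)‖) *
              2 ^ (i / 4) := mul_le_mul_of_nonneg_right (norm_sum_le _ _) (by positivity)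
        _ = ∑ t ∈ T, ‖∑ y ∈ U ×ˢ U,
            (ZMod.stdAddChar (h * ((g t * (y.1 * y.2) : ℕ) : ZMod (2 ^ R))) : ℂ)‖ *
              2 ^ (i / 4) := Finset.sum_mul _ _ _
        _ ≤ ∑ _t ∈ T, (U.card : ℝ) ^ 2 := Finset.sum_le_sum hbil
        _ = ((T ×ˢ (U ×ˢ U)).card : ℝ) := by
            rw [Finset.sum_const, nsmul_eq_mul]
            simp only [Finset.card_product]
            push_cast
            ring
    · -- the old range
      rw [hsum]
      calc ‖∑ y ∈ U ×ˢ U, Sg (2 ^ R) T (fun t => (g t : ZMod (2 ^ R)))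
            (h * ((y.1 * y.2 : ℕ) : ZMod (2 ^ R)))‖ * 2 ^ (i / 4)
          ≤ (∑ y ∈ U ×ˢ U, ‖Sg (2 ^ R) T (fun t => (g t : ZMod (2 ^ R)))
            (h * ((y.1 * y.2 : ℕ) : ZMod (2 ^ R)))‖) * 2 ^ (i / 4) :=
            mul_le_mul_of_nonneg_right (norm_sum_le _ _) (by positivity)
        _ = ∑ y ∈ U ×ˢ U, ‖Sg (2 ^ R) T (fun t => (g t : ZMod (2 ^ R)))
            (h * ((y.1 * y.2 : ℕ) : ZMod (2 ^ R)))‖ * 2 ^ (i / 4) := Finset.sum_mul _ _ _
        _ ≤ ∑ _y ∈ U ×ˢ U, (T.card : ℝ) := by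
            refine Finset.sum_le_sum fun y hy => ?_
            exact hs _ i hi hcase (order_mul_odd (hyodd y hy) hh)
        _ = ((T ×ˢ (U ×ˢ U)).card : ℝ) := by
            rw [Finset.sum_const, nsmul_eq_mul]
            simp only [Finset.card_product]
            push_cast
            ring

theorem fam_exists (R b J l : ℕ) [NeZero (2 ^ R)] (hl : 4 * b * 2 ^ J ≤ 2 ^ l)
    (hb : 8 * l + 8 ≤ b) : ∃ (τ : Type) (T : Finset τ) (g : τ → ℕ), FamOK R b J T g := by
  induction J with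
  | zero => exact ⟨ℕ, _, _, fam_base R b (by omega)⟩
  | succ J ih =>
    obtain ⟨τ, T, g, h⟩ := ih (by
      refine le_trans ?_ hl
      exact Nat.mul_le_mul_left _ (Nat.pow_le_pow_right (by norm_num) (by omega)))
    exact ⟨_, _, _, fam_step R b J l T g h hl hb⟩

/-- ADDITIVE LEMMA: every even class modulo `2 ^ R`, `R ≤ b 2 ^ J`, is a sum of eight products of
`2 ^ (J + 2) - 3` odd numbers below `2 ^ b`. -/
theorem eight (b l J R : ℕ) (hl : 4 * b * 2 ^ J ≤ 2 ^ l) (hb : 8 * l + 8 ≤ b)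
    (hR : R ≤ b * 2 ^ J) (m : ℕ) :
    ∃ L : Fin 8 → List ℕ, (∀ i, (L i).length = 2 ^ (J + 2) - 3) ∧
      (∀ i, ∀ x ∈ L i, x < 2 ^ b ∧ Odd x) ∧ ∑ i, (L i).prod ≡ 2 * m [MOD 2 ^ R] := by
  haveI : NeZero (2 ^ R) := ⟨by positivity⟩
  obtain ⟨τ, T, g, hT, hL, hz, hs⟩ := fam_exists R b J l hl hb
  have hgodd : ∀ t ∈ T, Odd (g t) := by
    intro t ht
    obtain ⟨L, -, h2, h3⟩ := hL t ht
    rw [h3]
    exact list_odd fun x hx => (h2 x hx).2
  obtain ⟨t, ht, hsum⟩ := octo R b T hT g hgodd (by omega) hz (fun h i hi hh => by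
    refine hs h i hi ?_ hh
    have h1 : addOrderOf h ∣ 2 ^ R := by
      have h2 := addOrderOf_dvd_card (x := h)
      rwa [ZMod.card] at h2
    rw [hh] at h1
    have h3 := (Nat.pow_dvd_pow_iff_le_right (by norm_num)).1 h1
    omega) m
  choose L hL1 hL2 hL3 using fun i => hL (t i) (ht i)
  refine ⟨L, hL1, hL2, ?_⟩
  rw [← ZMod.natCast_eq_natCast_iff, ← hsum, Nat.cast_sum]
  refine Finset.sum_congr rfl fun i _ => ?_
  rw [hL3 i]

end HadNT
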