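import Pool.Agent.Lib_MP_008adc_co.NTern0

/-!
# Sums of `k` members of a family modulo a power of two
-/

set_option autoImplicit false

namespace HadNT

private theorem octo_norm_psi (M : ℕ) [NeZero M] (x : ZMod M) :
    ‖(ZMod.stdAddChar x : ℂ)‖ = 1 := by
  rw [ZMod.stdAddChar_apply]
  exact Circle.norm_coe _

private theorem octo_prod (M : ℕ) [NeZero M] {ι : Type} (s : Finset ι) (f : ι → ZMod M) :
    ∏ j ∈ s, (ZMod.stdAddChar (f j) : ℂ) = (ZMod.stdAddChar (∑ j ∈ s, f j) : ℂ) := by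
  classical
  induction s using Finset.induction_on with
  | empty => simp
  | insert a s ha ih => rw [Finset.prod_insert ha, Finset.sum_insert ha, ih, AddChar.map_add_eq_mul]

/-- the number of representations as a sum of `k` members of the family -/
theorem rep_sum (M : ℕ) [NeZero M] {τ : Type} [DecidableEq τ] (T : Finset τ) (g : τ → ZMod M)
    (k : ℕ) (n : ZMod M) :
    ∑ h : ZMod M, Sg M T g h ^ k * (ZMod.stdAddChar (-(h * n)) : ℂ) =
      ∑ p ∈ Fintype.piFinset (fun _ : Fin k => T),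
        if ∑ j, g (p j) - n = 0 then (M : ℂ) else 0 := by
  have h1 : ∀ h : ZMod M, Sg M T g h ^ k * (ZMod.stdAddChar (-(h * n)) : ℂ) =
      ∑ p ∈ Fintype.piFinset (fun _ : Fin k => T),
        (ZMod.stdAddChar (h * (∑ j, g (p j) - n)) : ℂ) := by
    intro h
    have h2 : Sg M T g h ^ k = ∏ _j : Fin k, ∑ t ∈ T, (ZMod.stdAddChar (h * g t) : ℂ) := by
      rw [Finset.prod_const, Finset.card_univ, Fintype.card_fin]
      rfl
    rw [h2, Finset.prod_univ_sum, Finset.sum_mul]
    refine Finset.sum_congr rfl fun p _ => ?_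
    have h3 : ∏ j, (ZMod.stdAddChar (h * g (p j)) : ℂ) =
        (ZMod.stdAddChar (∑ j, h * g (p j)) : ℂ) :=
      octo_prod M Finset.univ (fun j => h * g (p j))
    rw [h3, ← AddChar.map_add_eq_mul]
    congr 1
    rw [← Finset.mul_sum]
    ring
  rw [Finset.sum_congr rfl (fun h _ => h1 h), Finset.sum_comm]
  exact Finset.sum_congr rfl fun p _ => orth M _

/-- the elements of order `2 ^ i` -/
noncomputable def Wo (R i : ℕ) : Finset (ZMod (2 ^ R)) := by
  classical
  haveI : NeZero (2 ^ R) := ⟨by positivity⟩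
  exact Finset.univ.filter fun h => addOrderOf h = 2 ^ i

theorem mem_Wo {R i : ℕ} {h : ZMod (2 ^ R)} : h ∈ Wo R i ↔ addOrderOf h = 2 ^ i := by
  classical
  unfold Wo
  rw [Finset.mem_filter]
  exact ⟨fun h => h.2, fun h => ⟨Finset.mem_univ _, h⟩⟩

theorem card_Wo {R i : ℕ} (hi : i ≤ R) : (Wo R i).card = Nat.totient (2 ^ i) := by
  classical
  haveI : NeZero (2 ^ R) := ⟨by positivity⟩
  have h1 := IsAddCyclic.card_addOrderOf_eq_totient (α := ZMod (2 ^ R)) (d := 2 ^ i) (by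
    rw [ZMod.card]
    exact pow_dvd_pow 2 hi)
  rw [← h1]
  unfold Wo
  congr 1

theorem card_Wo_succ {R i : ℕ} (hi : i + 1 ≤ R) : (Wo R (i + 1)).card = 2 ^ i := by
  rw [card_Wo hi, Nat.totient_prime_pow_succ Nat.prime_two]
  simp

theorem sum_Wo {R : ℕ} [NeZero (2 ^ R)] {A : Type} [AddCommMonoid A] (F : ZMod (2 ^ R) → A) :
    ∑ h : ZMod (2 ^ R), F h = ∑ i ∈ Finset.range (R + 1), ∑ h ∈ Wo R i, F h := by
  classical
  have key : ∀ h : ZMod (2 ^ R), ∃ i ≤ R, addOrderOf h = 2 ^ i := by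
    intro h
    have h1 : addOrderOf h ∣ 2 ^ R := by
      have h2 := addOrderOf_dvd_card (x := h)
      rwa [ZMod.card] at h2
    exact (Nat.dvd_prime_pow Nat.prime_two).1 h1
  rw [← Finset.sum_fiberwise_of_maps_to (s := Finset.univ) (t := Finset.range (R + 1))
    (g := fun h : ZMod (2 ^ R) => Nat.log 2 (addOrderOf h))
    (fun h _ => by
      obtain ⟨i, hi, he⟩ := key h
      rw [he, Nat.log_pow (by norm_num)]
      exact Finset.mem_range.2 (by omega))]
  refine Finset.sum_congr rfl fun i _ => ?_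
  refine Finset.sum_congr ?_ fun _ _ => rfl
  ext h
  rw [Finset.mem_filter, mem_Wo]
  obtain ⟨j, -, he⟩ := key h
  rw [he, Nat.log_pow (by norm_num)]
  constructor
  · rintro ⟨-, rfl⟩
    rfl
  · intro h2
    exact ⟨Finset.mem_univ _, Nat.pow_right_injective (le_refl 2) h2⟩

/-- the bound for the tail -/
theorem octo_tail (b R : ℕ) (hb : 5 ≤ b) :
    ∑ i ∈ Finset.range (R + 1), (if b < i then (2 : ℝ) ^ (i - 1) / (2 ^ (i / 4)) ^ 8 else 0) < 1 := by
  have h1 : ∀ i, b < i → (2 : ℝ) ^ (i - 1) / (2 ^ (i / 4)) ^ 8 ≤ 32 / 2 ^ i := by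
    intro i hi
    have h2 : 2 * i ≤ 8 * (i / 4) + 6 := by omega
    rw [div_le_div_iff₀ (by positivity) (by positivity)]
    have e1 : (2 : ℝ) ^ (i - 1) * 2 ^ i = 2 ^ (i - 1 + i) := (pow_add _ _ _).symm
    have e2 : (32 : ℝ) * (2 ^ (i / 4)) ^ 8 = 2 ^ (5 + i / 4 * 8) := by
      rw [pow_add, pow_mul]
      norm_num
    rw [e1, e2]
    exact pow_le_pow_right₀ (by norm_num) (by omega)
  have h3 : ∀ R : ℕ, ∑ i ∈ Finset.range (R + 1),
      (if b < i then (2 : ℝ) ^ (i - 1) / (2 ^ (i / 4)) ^ 8 else 0) ≤ 32 / 2 ^ b - 32 / 2 ^ (max R b) := by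
    intro R
    induction R with
    | zero =>
      rw [Finset.sum_range_one, if_neg (by omega), Nat.zero_max, sub_self]
    | succ R ih =>
      rw [Finset.sum_range_succ]
      split_ifs with h
      · have e1 : max R b = R := by omega
        have e2 : max (R + 1) b = R + 1 := by omega
        rw [e1] at ih
        rw [e2]
        have h4 := h1 (R + 1) h
        have h5 : (32 : ℝ) / 2 ^ R = 32 / 2 ^ (R + 1) + 32 / 2 ^ (R + 1) := by
          rw [pow_succ]
          field_simp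
          norm_num
        linarith
      · have e1 : max R b = b := by omega
        have e2 : max (R + 1) b = b := by omega
        rw [e1] at ih
        rw [e2, add_zero]
        exact ih
  have h6 := h3 R
  have h7 : (32 : ℝ) / 2 ^ b ≤ 1 := by
    rw [div_le_one (by positivity)]
    calc (32 : ℝ) = 2 ^ 5 := by norm_num
      _ ≤ 2 ^ b := pow_le_pow_right₀ (by norm_num) hb
  have h8 : (0 : ℝ) < 32 / 2 ^ (max R b) := by positivity
  linarith

/-- EIGHT SUMMANDS: if the exponential sum of a family of odd numbers vanishes at all elements of order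
`2 ^ i`, `2 ≤ i ≤ b`, and is at most `|T| / 2 ^ (i / 4)` at the elements of order `2 ^ i`, `i > b`, then
every even class is a sum of eight members. -/
theorem octo (R b : ℕ) [NeZero (2 ^ R)] {τ : Type} (T : Finset τ) (hT : T.Nonempty) (g : τ → ℕ)
    (hodd : ∀ t ∈ T, Odd (g t)) (hb : 5 ≤ b)
    (h0 : ∀ (h : ZMod (2 ^ R)) (i : ℕ), 2 ≤ i → i ≤ b → addOrderOf h = 2 ^ i →
      Sg (2 ^ R) T (fun t => (g t : ZMod (2 ^ R))) h = 0)
    (h1 : ∀ (h : ZMod (2 ^ R)) (i : ℕ), b < i → addOrderOf h = 2 ^ i →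
      ‖Sg (2 ^ R) T (fun t => (g t : ZMod (2 ^ R))) h‖ * 2 ^ (i / 4) ≤ T.card) (m : ℕ) :
    ∃ t : Fin 8 → τ, (∀ j, t j ∈ T) ∧ ∑ j, (g (t j) : ZMod (2 ^ R)) = ((2 * m : ℕ) : ZMod (2 ^ R)) := by
  classical
  by_contra hcon
  push Not at hcon
  set G : τ → ZMod (2 ^ R) := fun t => (g t : ZMod (2 ^ R)) with hG
  set n : ZMod (2 ^ R) := ((2 * m : ℕ) : ZMod (2 ^ R)) with hn
  have hTc : (0 : ℝ) < (T.card : ℝ) := by exact_mod_cast hT.card_pos
  have hsum := rep_sum (2 ^ R) T G 8 n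
  have hz : ∑ p ∈ Fintype.piFinset (fun _ : Fin 8 => T),
      (if ∑ j, G (p j) - n = 0 then ((2 ^ R : ℕ) : ℂ) else 0) = 0 := by
    refine Finset.sum_eq_zero fun p hp => ?_
    rw [if_neg]
    intro h2
    exact hcon p (Fintype.mem_piFinset.1 hp) (sub_eq_zero.1 h2)
  rw [hz, sum_Wo] at hsum
  -- the four kinds of orders
  have t0 : ∑ h ∈ Wo R 0, Sg (2 ^ R) T G h ^ 8 * (ZMod.stdAddChar (-(h * n)) : ℂ) =
      (T.card : ℂ) ^ 8 := by
    have e1 : Wo R 0 = {0} := by
      ext h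
      rw [mem_Wo, Finset.mem_singleton, pow_zero, AddMonoid.addOrderOf_eq_one_iff]
    rw [e1, Finset.sum_singleton]
    unfold Sg
    simp
  have t1 : 1 ≤ R → ∑ h ∈ Wo R 1, Sg (2 ^ R) T G h ^ 8 * (ZMod.stdAddChar (-(h * n)) : ℂ) =
      (T.card : ℂ) ^ 8 := by
    intro hR
    have hc := card_Wo_succ (R := R) (i := 0) (by omega)
    rw [pow_zero, Finset.card_eq_one] at hc
    obtain ⟨a, ha⟩ := hc
    rw [zero_add] at ha
    have haW : addOrderOf a = 2 := by
      have := mem_Wo (R := R) (i := 1) (h := a)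
      rw [ha] at this
      simpa using this.1 (Finset.mem_singleton_self a)
    have h2a : (2 : ZMod (2 ^ R)) * a = 0 := by
      have := addOrderOf_nsmul_eq_zero a
      rw [haW, nsmul_eq_mul] at this
      exact_mod_cast this
    have ha0 : a ≠ 0 := by
      intro h
      rw [h, addOrderOf_zero] at haW
      omega
    have hpsi : (ZMod.stdAddChar a : ℂ) = -1 := by
      have e1 : (ZMod.stdAddChar a : ℂ) ^ 2 = 1 := by
        rw [← AddChar.map_nsmul_eq_pow, nsmul_eq_mul]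
        have : ((2 : ℕ) : ZMod (2 ^ R)) * a = 0 := by exact_mod_cast h2a
        rw [this, AddChar.map_zero_eq_one]
      rcases sq_eq_one_iff.1 e1 with h | h
      · exfalso
        apply ha0
        apply ZMod.injective_stdAddChar
        rw [AddChar.map_zero_eq_one]
        exact h
      · exact h
    have hval : ∀ t ∈ T, (ZMod.stdAddChar (a * G t) : ℂ) = -1 := by
      intro t ht
      obtain ⟨c, hc⟩ := hodd t ht
      have e1 : a * G t = a := by
        rw [hG]
        simp only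
        rw [hc]
        push_cast
        have e2 : a * (2 * (c : ZMod (2 ^ R)) + 1) = (2 * a) * c + a := by ring
        rw [e2, h2a]
        ring
      rw [e1, hpsi]
    have hS : Sg (2 ^ R) T G a = -(T.card : ℂ) := by
      unfold Sg
      rw [Finset.sum_congr rfl hval, Finset.sum_const, nsmul_eq_mul]
      ring
    have hn0 : a * n = 0 := by
      rw [hn]
      push_cast
      have e2 : a * (2 * (m : ZMod (2 ^ R))) = (2 * a) * m := by ring
      rw [e2, h2a, zero_mul]
    rw [ha, Finset.sum_singleton, hS, hn0, neg_zero, AddChar.map_zero_eq_one]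
    ring
  have t2 : ∀ i, 2 ≤ i → i ≤ b →
      ∑ h ∈ Wo R i, Sg (2 ^ R) T G h ^ 8 * (ZMod.stdAddChar (-(h * n)) : ℂ) = 0 := by
    intro i hi hib
    refine Finset.sum_eq_zero fun h hh => ?_
    rw [h0 h i hi hib (mem_Wo.1 hh)]
    ring
  have t3 : ∀ i, b < i → i ≤ R →
      ‖∑ h ∈ Wo R i, Sg (2 ^ R) T G h ^ 8 * (ZMod.stdAddChar (-(h * n)) : ℂ)‖ ≤
        (T.card : ℝ) ^ 8 * (2 ^ (i - 1) / (2 ^ (i / 4)) ^ 8) := by
    intro i hi hiR
    have hc : ((Wo R i).card : ℝ) = 2 ^ (i - 1) := by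
      obtain ⟨j, rfl⟩ : ∃ j, i = j + 1 := ⟨i - 1, by omega⟩
      rw [card_Wo_succ hiR]
      push_cast
      simp
    refine (norm_sum_le _ _).trans ?_
    have hle : ∀ h ∈ Wo R i, ‖Sg (2 ^ R) T G h ^ 8 * (ZMod.stdAddChar (-(h * n)) : ℂ)‖ ≤
        (T.card : ℝ) ^ 8 / (2 ^ (i / 4)) ^ 8 := by
      intro h hh
      rw [norm_mul, octo_norm_psi, mul_one, norm_pow, ← div_pow]
      refine pow_le_pow_left₀ (norm_nonneg _) ?_ 8
      rw [le_div_iff₀ (by positivity)]
      exact h1 h i hi (mem_Wo.1 hh)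
    refine (Finset.sum_le_sum hle).trans ?_
    rw [Finset.sum_const, nsmul_eq_mul, hc]
    apply le_of_eq
    ring
  -- conclusion
  have hbig : ‖∑ i ∈ Finset.range (R + 1), (if b < i then
      ∑ h ∈ Wo R i, Sg (2 ^ R) T G h ^ 8 * (ZMod.stdAddChar (-(h * n)) : ℂ) else 0)‖ <
      (T.card : ℝ) ^ 8 := by
    refine lt_of_le_of_lt (norm_sum_le _ _) ?_
    have h5 : ∑ i ∈ Finset.range (R + 1), ‖(if b < i then
        ∑ h ∈ Wo R i, Sg (2 ^ R) T G h ^ 8 * (ZMod.stdAddChar (-(h * n)) : ℂ) else 0)‖ ≤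
        (T.card : ℝ) ^ 8 * ∑ i ∈ Finset.range (R + 1),
          (if b < i then (2 : ℝ) ^ (i - 1) / (2 ^ (i / 4)) ^ 8 else 0) := by
      rw [Finset.mul_sum]
      refine Finset.sum_le_sum fun i hi => ?_
      split_ifs with hbi
      · exact t3 i hbi (by have := Finset.mem_range.1 hi; omega)
      · simp
    have h6 := octo_tail b R hb
    have h7 : (T.card : ℝ) ^ 8 * ∑ i ∈ Finset.range (R + 1),
        (if b < i then (2 : ℝ) ^ (i - 1) / (2 ^ (i / 4)) ^ 8 else 0) < (T.card : ℝ) ^ 8 * 1 :=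
      mul_lt_mul_of_pos_left h6 (by positivity)
    rw [mul_one] at h7
    exact lt_of_le_of_lt h5 h7
  have hsplit : ∑ i ∈ Finset.range (R + 1),
      ∑ h ∈ Wo R i, Sg (2 ^ R) T G h ^ 8 * (ZMod.stdAddChar (-(h * n)) : ℂ) =
      (∑ i ∈ Finset.range (R + 1), (if i ≤ 1 then (T.card : ℂ) ^ 8 else 0)) +
      ∑ i ∈ Finset.range (R + 1), (if b < i then
      ∑ h ∈ Wo R i, Sg (2 ^ R) T G h ^ 8 * (ZMod.stdAddChar (-(h * n)) : ℂ) else 0) := by
    rw [← Finset.sum_add_distrib]
    refine Finset.sum_congr rfl fun i hi => ?_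
    have hiR : i ≤ R := by have := Finset.mem_range.1 hi; omega
    rcases Nat.lt_or_ge 1 i with h | h
    · rw [if_neg (by omega : ¬ i ≤ 1)]
      rcases Nat.lt_or_ge b i with h' | h'
      · rw [if_pos h', zero_add]
      · rw [if_neg (by omega), t2 i h h']
        ring
    · rw [if_pos h, if_neg (by omega), add_zero]
      rcases Nat.le_one_iff_eq_zero_or_eq_one.1 h with rfl | rfl
      · exact t0
      · exact t1 hiR
  rw [hsplit] at hsum
  have h8 : ‖∑ i ∈ Finset.range (R + 1), (if i ≤ 1 then (T.card : ℂ) ^ 8 else 0)‖ ≥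
      (T.card : ℝ) ^ 8 := by
    have e1 : ∑ i ∈ Finset.range (R + 1), (if i ≤ 1 then (T.card : ℂ) ^ 8 else 0) =
        ((∑ i ∈ Finset.range (R + 1), (if i ≤ 1 then (T.card : ℝ) ^ 8 else 0) : ℝ) : ℂ) := by
      push_cast
      refine Finset.sum_congr rfl fun i _ => ?_
      split_ifs <;> push_cast <;> rfl
    have e2 : (T.card : ℝ) ^ 8 ≤
        ∑ i ∈ Finset.range (R + 1), (if i ≤ 1 then (T.card : ℝ) ^ 8 else 0) := by
      have := Finset.single_le_sum (f := fun i => if i ≤ 1 then (T.card : ℝ) ^ 8 else 0)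
        (s := Finset.range (R + 1)) (fun i _ => by
          show (0 : ℝ) ≤ if i ≤ 1 then (T.card : ℝ) ^ 8 else 0
          split_ifs
          · positivity
          · exact le_rfl)
        (Finset.mem_range.2 (by omega : 0 < R + 1))
      simpa using this
    rw [e1, Complex.norm_real]
    exact e2.trans (le_abs_self _)
  have h9 := eq_neg_of_add_eq_zero_left hsum
  rw [h9, norm_neg] at h8
  exact absurd hbig (not_lt.2 h8)

end HadNT
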